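import Pool.Agent.X159.MB.Core

/-!
Character sums over difference sets, small sets and pairs of sets with coefficients.
-/

set_option autoImplicit false

namespace Pool.Agent.X159.PG

open Finset

variable {p : ℕ}

/-- `∑_{a ∈ X, b ∈ Y} χ(a - b)` -/
noncomputable def bil (χ : DirichletCharacter ℂ p) (X Y : Finset (ZMod p)) : ℂ :=
  ∑ a ∈ X, ∑ b ∈ Y, χ (a - b)

/-- Q1 -/
def DifferenceSets : Prop :=
  ∀ δ : ℝ, 0 < δ → ∃ τ : ℝ, 0 < τ ∧ ∃ P : ℕ, ∀ p : ℕ, p.Prime → P ≤ p →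
    ∀ A : Finset (ZMod p), (p : ℝ) ^ δ < (A.card : ℝ) →
      ∀ χ : DirichletCharacter ℂ p, χ ≠ 1 →
        ‖∑ a ∈ A, ∑ b ∈ A, χ (a - b)‖ < (A.card : ℝ) ^ (2 - τ)

/-- Only the sets with exactly `⌈p^δ⌉` elements and the even characters. -/
def SmallSets : Prop :=
  ∀ δ : ℝ, 0 < δ → ∃ τ : ℝ, 0 < τ ∧ ∃ P : ℕ, ∀ p : ℕ, p.Prime → P ≤ p →
    ∀ A : Finset (ZMod p), A.card = ⌈(p : ℝ) ^ δ⌉₊ →
      ∀ χ : DirichletCharacter ℂ p, χ ≠ 1 → χ (-1) = 1 →
        ‖∑ a ∈ A, ∑ b ∈ A, χ (a - b)‖ ≤ (A.card : ℝ) ^ (2 - τ)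

/-- Pairs of sets, arbitrary bounded coefficients, even characters. -/
def TwoSets : Prop :=
  ∀ δ : ℝ, 0 < δ → ∃ τ : ℝ, 0 < τ ∧ ∃ P : ℕ, ∀ p : ℕ, p.Prime → P ≤ p →
    ∀ A B : Finset (ZMod p), (p : ℝ) ^ δ < (A.card : ℝ) → (p : ℝ) ^ δ < (B.card : ℝ) →
      ∀ u v : ZMod p → ℂ, (∀ a, ‖u a‖ ≤ 1) → (∀ b, ‖v b‖ ≤ 1) →
      ∀ χ : DirichletCharacter ℂ p, χ ≠ 1 → χ (-1) = 1 →
        ‖∑ a ∈ A, ∑ b ∈ B, u a * v b * χ (a - b)‖ ≤ (p : ℝ) ^ (-τ) * (A.card * B.card)

theorem bil_comm (χ : DirichletCharacter ℂ p) (h : χ (-1) = 1) (X Y : Finset (ZMod p)) :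
    bil χ X Y = bil χ Y X := by
  unfold bil
  rw [sum_comm]
  apply sum_congr rfl
  intro b _
  apply sum_congr rfl
  intro a _
  have : a - b = (-1) * (b - a) := by ring
  rw [this, map_mul, h, one_mul]

theorem bil_union_left (χ : DirichletCharacter ℂ p) (X X' Y : Finset (ZMod p))
    (h : Disjoint X X') : bil χ (X ∪ X') Y = bil χ X Y + bil χ X' Y := by
  unfold bil
  exact sum_union h

theorem bil_union_right (χ : DirichletCharacter ℂ p) (X Y Y' : Finset (ZMod p))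
    (h : Disjoint Y Y') : bil χ X (Y ∪ Y') = bil χ X Y + bil χ X Y' := by
  unfold bil
  rw [← sum_add_distrib]
  exact sum_congr rfl fun a _ => sum_union h

/-- polarization -/
theorem polar3 (χ : DirichletCharacter ℂ p) (h : χ (-1) = 1) (D E I : Finset (ZMod p))
    (hDE : Disjoint D E) (hD : Disjoint D I) (hE : Disjoint E I) :
    2 * bil χ (D ∪ I) (E ∪ I) = bil χ (D ∪ E) (D ∪ E) + bil χ (D ∪ I) (D ∪ I) +
      bil χ (E ∪ I) (E ∪ I) - 2 * bil χ D D - 2 * bil χ E E := by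
  rw [bil_union_left χ D I (E ∪ I) hD, bil_union_left χ D E (D ∪ E) hDE,
    bil_union_left χ D I (D ∪ I) hD, bil_union_left χ E I (E ∪ I) hE,
    bil_union_right χ D E I hE, bil_union_right χ I E I hE, bil_union_right χ D D E hDE,
    bil_union_right χ E D E hDE, bil_union_right χ D D I hD, bil_union_right χ I D I hD,
    bil_union_right χ E E I hE]
  have e1 := bil_comm χ h E D
  have e2 := bil_comm χ h I D
  have e3 := bil_comm χ h I E
  rw [e1, e2, e3]
  ring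

theorem polar (χ : DirichletCharacter ℂ p) (h : χ (-1) = 1) (X Y : Finset (ZMod p)) :
    2 * bil χ X Y = bil χ ((X \ Y) ∪ (Y \ X)) ((X \ Y) ∪ (Y \ X)) + bil χ X X + bil χ Y Y
      - 2 * bil χ (X \ Y) (X \ Y) - 2 * bil χ (Y \ X) (Y \ X) := by
  have hX : (X \ Y) ∪ (X ∩ Y) = X := sdiff_union_inter X Y
  have hY : (Y \ X) ∪ (X ∩ Y) = Y := by
    rw [inter_comm]
    exact sdiff_union_inter Y X
  have d1 : Disjoint (X \ Y) (Y \ X) := by
    rw [disjoint_left]
    intro a ha hb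
    exact (mem_sdiff.1 ha).2 (mem_sdiff.1 hb).1
  have d2 : Disjoint (X \ Y) (X ∩ Y) := by
    rw [disjoint_left]
    intro a ha hb
    exact (mem_sdiff.1 ha).2 (mem_inter.1 hb).2
  have d3 : Disjoint (Y \ X) (X ∩ Y) := by
    rw [disjoint_left]
    intro a ha hb
    exact (mem_sdiff.1 ha).2 (mem_inter.1 hb).1
  have := polar3 χ h _ _ _ d1 d2 d3
  rwa [hX, hY] at this

/-- the trivial bound -/
theorem bil_trivial (χ : DirichletCharacter ℂ p) (X Y : Finset (ZMod p)) :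
    ‖bil χ X Y‖ ≤ X.card * Y.card := by
  unfold bil
  calc ‖∑ a ∈ X, ∑ b ∈ Y, χ (a - b)‖ ≤ ∑ a ∈ X, ‖∑ b ∈ Y, χ (a - b)‖ := norm_sum_le _ _
    _ ≤ ∑ a ∈ X, (Y.card : ℝ) := sum_le_sum fun a _ => by
        calc ‖∑ b ∈ Y, χ (a - b)‖ ≤ ∑ b ∈ Y, ‖χ (a - b)‖ := norm_sum_le _ _
          _ ≤ ∑ b ∈ Y, (1 : ℝ) := sum_le_sum fun b _ => χ.norm_le_one _
          _ = Y.card := by simp
    _ = _ := by rw [sum_const, nsmul_eq_mul]

/-- `∑_{c ∈ C} S(C \ c) = (|C| - 2) S(C)` -/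
theorem sum_erase (χ : DirichletCharacter ℂ p) (hp : p ≠ 1) (C : Finset (ZMod p)) :
    ∑ c ∈ C, bil χ (C.erase c) (C.erase c) = ((C.card : ℂ) - 2) * bil χ C C := by
  have h0 : χ 0 = 0 := by
    have : ¬ IsUnit (0 : ZMod p) := by
      haveI : Nontrivial (ZMod p) := ZMod.nontrivial_iff.2 hp
      exact not_isUnit_zero
    exact χ.map_nonunit this
  have h1 : ∀ c ∈ C, bil χ (C.erase c) (C.erase c) =
      bil χ C C - ∑ b ∈ C, χ (c - b) - ∑ a ∈ C, χ (a - c) := by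
    intro c hc
    unfold bil
    have e1 : ∀ a, ∑ b ∈ C.erase c, χ (a - b) = ∑ b ∈ C, χ (a - b) - χ (a - c) := fun a =>
      sum_erase_eq_sub hc
    simp only [e1]
    rw [sum_erase_eq_sub hc, sum_sub_distrib, sub_self, h0]
    ring
  rw [sum_congr rfl h1, sum_sub_distrib, sum_sub_distrib, sum_const, nsmul_eq_mul]
  have h2 : ∑ c ∈ C, ∑ b ∈ C, χ (c - b) = bil χ C C := rfl
  have h3 : ∑ c ∈ C, ∑ a ∈ C, χ (a - c) = bil χ C C := by
    rw [sum_comm]
    rfl
  rw [h2, h3]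
  ring

/-- The normalised maximum does not increase with the size of the set. -/
theorem average (χ : DirichletCharacter ℂ p) (hp : p ≠ 1) (m : ℕ) (hm : 2 ≤ m) (K : ℝ)
    (h : ∀ A : Finset (ZMod p), A.card = m → ‖bil χ A A‖ ≤ K * (m * (m - 1))) :
    ∀ s : ℕ, m ≤ s → ∀ C : Finset (ZMod p), C.card = s → ‖bil χ C C‖ ≤ K * (s * (s - 1)) := by
  intro s hs
  induction s, hs using Nat.le_induction with
  | base => exact h
  | succ s hs ih =>
    intro C hC
    have h1 := sum_erase χ hp C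
    have hs2 : (2 : ℝ) ≤ s := by exact_mod_cast hm.trans hs
    have h2 : ‖((C.card : ℂ) - 2) * bil χ C C‖ ≤ (s + 1) * (K * (s * (s - 1))) := by
      rw [← h1]
      calc ‖∑ c ∈ C, bil χ (C.erase c) (C.erase c)‖ ≤
            ∑ c ∈ C, ‖bil χ (C.erase c) (C.erase c)‖ := norm_sum_le _ _
        _ ≤ ∑ c ∈ C, K * (s * (s - 1)) := sum_le_sum fun c hc =>
            ih _ (by rw [card_erase_of_mem hc, hC]; omega)
        _ = _ := by
            rw [sum_const, hC, nsmul_eq_mul]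
            push_cast
            ring
    rw [norm_mul, hC] at h2
    have h3 : ‖(((s + 1 : ℕ) : ℂ) - 2)‖ = (s : ℝ) - 1 := by
      have : (((s + 1 : ℕ) : ℂ) - 2) = (((s : ℝ) - 1 : ℝ) : ℂ) := by
        push_cast
        ring
      rw [this, Complex.norm_real, Real.norm_of_nonneg (by linarith)]
    rw [h3] at h2
    have h4 : 0 < (s : ℝ) - 1 := by linarith
    have h5 : ((s : ℝ) - 1) * ‖bil χ C C‖ ≤
        ((s : ℝ) - 1) * (K * (((s + 1 : ℕ) : ℝ) * (((s + 1 : ℕ) : ℝ) - 1))) := by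
      refine h2.trans (le_of_eq ?_)
      push_cast
      ring
    exact le_of_mul_le_mul_left h5 h4

/-- subdivision -/
theorem norm_sum_pieces {ι : Type*} [DecidableEq ι] (N : ℕ) (hN : 1 ≤ N) (g : ι → ℂ)
    (K : ℝ) (hK : 0 ≤ K) (W : Finset ι) (h : ∀ V ⊆ W, V.card ≤ N → ‖∑ t ∈ V, g t‖ ≤ K) :
    ‖∑ t ∈ W, g t‖ ≤ K * ((W.card : ℝ) / N + 1) := by
  have hN0 : (0 : ℝ) < N := by exact_mod_cast hN
  induction W using Finset.strongInduction with
  | H W ih =>
    rcases Nat.lt_or_ge N W.card with hc | hc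
    · obtain ⟨V, hV, hVc⟩ := exists_subset_card_eq hc.le
      have h1 := h V hV hVc.le
      have hss : W \ V ⊂ W := by
        refine ⟨sdiff_subset, fun hsub => ?_⟩
        have hVne : V.Nonempty := by
          rw [← card_pos, hVc]
          omega
        obtain ⟨x, hx⟩ := hVne
        exact (mem_sdiff.1 (hsub (hV hx))).2 hx
      have h2 := ih (W \ V) hss fun U hU hUc => h U (hU.trans sdiff_subset) hUc
      have h3 : ((W \ V).card : ℝ) = W.card - N := by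
        rw [card_sdiff_of_subset hV, hVc, Nat.cast_sub hc.le]
      rw [← sum_sdiff hV]
      rw [h3] at h2
      calc ‖∑ t ∈ W \ V, g t + ∑ t ∈ V, g t‖ ≤ ‖∑ t ∈ W \ V, g t‖ + ‖∑ t ∈ V, g t‖ :=
            norm_add_le _ _
        _ ≤ K * ((W.card - N) / N + 1) + K := add_le_add h2 h1
        _ = K * ((W.card : ℝ) / N + 1) := by
            field_simp
            ring
    · have h1 := h W (Subset.refl _) hc
      have h2 : 0 ≤ (W.card : ℝ) / N := by positivity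
      nlinarith

/-- From sets of size at most `2n` to pairs of sets with coefficients. -/
theorem two_sets_of (χ : DirichletCharacter ℂ p) (h : χ (-1) = 1) (n : ℕ) (hn : 1 ≤ n) (M : ℝ)
    (hM : ∀ C : Finset (ZMod p), C.card ≤ 2 * n → ‖bil χ C C‖ ≤ M)
    (A B : Finset (ZMod p)) (hA : n ≤ A.card) (hB : n ≤ B.card)
    (u v : ZMod p → ℂ) (hu : ∀ a, ‖u a‖ ≤ 1) (hv : ∀ b, ‖v b‖ ≤ 1) :
    ‖∑ a ∈ A, ∑ b ∈ B, u a * v b * χ (a - b)‖ ≤ 256 * M / n ^ 2 * (A.card * B.card) := by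
  have hn0 : (0 : ℝ) < n := by exact_mod_cast hn
  have hM0 : 0 ≤ M := (norm_nonneg _).trans (hM ∅ (by simp))
  have hA' : (n : ℝ) ≤ A.card := by exact_mod_cast hA
  have hB' : (n : ℝ) ≤ B.card := by exact_mod_cast hB
  have h1 : ∀ X Y : Finset (ZMod p), X.card ≤ n → Y.card ≤ n → ‖bil χ X Y‖ ≤ 4 * M := by
    intro X Y hX hY
    have h2 := polar χ h X Y
    have c1 : (X \ Y).card ≤ n := (card_le_card sdiff_subset).trans hX
    have c2 : (Y \ X).card ≤ n := (card_le_card sdiff_subset).trans hY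
    have c3 : ((X \ Y) ∪ (Y \ X)).card ≤ 2 * n := by
      have := card_union_le (X \ Y) (Y \ X)
      omega
    have b1 := hM _ c3
    have b2 := hM X (by omega)
    have b3 := hM Y (by omega)
    have b4 := hM (X \ Y) (by omega)
    have b5 := hM (Y \ X) (by omega)
    have h3 : 2 * ‖bil χ X Y‖ ≤ 7 * M := by
      calc 2 * ‖bil χ X Y‖ = ‖2 * bil χ X Y‖ := by
            rw [norm_mul]
            norm_num
        _ ≤ 7 * M := by
            rw [h2]
            have t1 := norm_sub_le (bil χ ((X \ Y) ∪ (Y \ X)) ((X \ Y) ∪ (Y \ X)) + bil χ X X +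
              bil χ Y Y - 2 * bil χ (X \ Y) (X \ Y)) (2 * bil χ (Y \ X) (Y \ X))
            have t2 := norm_sub_le (bil χ ((X \ Y) ∪ (Y \ X)) ((X \ Y) ∪ (Y \ X)) + bil χ X X +
              bil χ Y Y) (2 * bil χ (X \ Y) (X \ Y))
            have t3 := norm_add_le (bil χ ((X \ Y) ∪ (Y \ X)) ((X \ Y) ∪ (Y \ X)) + bil χ X X)
              (bil χ Y Y)
            have t4 := norm_add_le (bil χ ((X \ Y) ∪ (Y \ X)) ((X \ Y) ∪ (Y \ X)))
              (bil χ X X)
            have t5 : ‖2 * bil χ (X \ Y) (X \ Y)‖ = 2 * ‖bil χ (X \ Y) (X \ Y)‖ := by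
              rw [norm_mul]
              norm_num
            have t6 : ‖2 * bil χ (Y \ X) (Y \ X)‖ = 2 * ‖bil χ (Y \ X) (Y \ X)‖ := by
              rw [norm_mul]
              norm_num
            linarith
    linarith
  -- pieces
  have h2 : ∀ X Y : Finset (ZMod p), X ⊆ A → Y ⊆ B →
      ‖bil χ X Y‖ ≤ 16 * M / n ^ 2 * (A.card * B.card) := by
    intro X Y hX hY
    have hXc : (X.card : ℝ) ≤ A.card := by exact_mod_cast card_le_card hX
    have hYc : (Y.card : ℝ) ≤ B.card := by exact_mod_cast card_le_card hY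
    have e1 : (X.card : ℝ) / n + 1 ≤ 2 * (A.card / n) := by
      have : 1 ≤ (A.card : ℝ) / n := by rwa [one_le_div hn0]
      have : (X.card : ℝ) / n ≤ A.card / n := div_le_div_of_nonneg_right hXc hn0.le
      linarith
    have e2 : (Y.card : ℝ) / n + 1 ≤ 2 * (B.card / n) := by
      have : 1 ≤ (B.card : ℝ) / n := by rwa [one_le_div hn0]
      have : (Y.card : ℝ) / n ≤ B.card / n := div_le_div_of_nonneg_right hYc hn0.le
      linarith
    have h3 : ∀ V ⊆ Y, V.card ≤ n → ‖bil χ X V‖ ≤ 4 * M * ((X.card : ℝ) / n + 1) := by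
      intro V _ hVn
      exact norm_sum_pieces n hn (fun a => ∑ b ∈ V, χ (a - b)) (4 * M) (by positivity) X
        fun U _ hUn => h1 U V hUn hVn
    have h4 : ‖∑ b ∈ Y, ∑ a ∈ X, χ (a - b)‖ ≤
        4 * M * ((X.card : ℝ) / n + 1) * ((Y.card : ℝ) / n + 1) := by
      apply norm_sum_pieces n hn (fun b => ∑ a ∈ X, χ (a - b)) _ (by positivity) Y
      intro V hV hVn
      have := h3 V hV hVn
      unfold bil at this
      rwa [sum_comm] at this
    have h5 : bil χ X Y = ∑ b ∈ Y, ∑ a ∈ X, χ (a - b) := by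
      unfold bil
      rw [sum_comm]
    rw [h5]
    refine h4.trans ?_
    calc 4 * M * ((X.card : ℝ) / n + 1) * ((Y.card : ℝ) / n + 1) ≤
          4 * M * (2 * (A.card / n)) * (2 * (B.card / n)) := by gcongr
      _ = _ := by
          field_simp
          ring
  -- coefficients
  have h6 : ∑ b ∈ B, ‖∑ a ∈ A, u a * χ (a - b)‖ ≤
      16 * (16 * M / n ^ 2 * (A.card * B.card)) := by
    apply MB.sum_norm_poly_le A B (fun a b => χ (a - b)) _ _ u hu
    intro X hX Y hY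
    exact h2 X Y hX hY
  calc ‖∑ a ∈ A, ∑ b ∈ B, u a * v b * χ (a - b)‖ =
        ‖∑ b ∈ B, v b * ∑ a ∈ A, u a * χ (a - b)‖ := by
        rw [sum_comm]
        congr 1
        apply sum_congr rfl
        intro b _
        rw [mul_sum]
        exact sum_congr rfl fun a _ => by ring
    _ ≤ ∑ b ∈ B, ‖v b * ∑ a ∈ A, u a * χ (a - b)‖ := norm_sum_le _ _
    _ ≤ ∑ b ∈ B, ‖∑ a ∈ A, u a * χ (a - b)‖ := sum_le_sum fun b _ => by
        rw [norm_mul]
        calc ‖v b‖ * ‖∑ a ∈ A, u a * χ (a - b)‖ ≤ 1 * ‖∑ a ∈ A, u a * χ (a - b)‖ :=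
              mul_le_mul_of_nonneg_right (hv b) (norm_nonneg _)
          _ = _ := one_mul _
    _ ≤ _ := h6
    _ = _ := by ring

theorem small_imp : SmallSets → TwoSets := by
  intro hS δ hδ
  obtain ⟨τ, hτ, P, hP⟩ := hS (δ / 2) (by positivity)
  set κ : ℝ := min δ (δ * τ / 2) with hκ
  have hκ0 : 0 < κ := lt_min hδ (by positivity)
  have hκ1 : κ ≤ δ := min_le_left _ _
  have hκ2 : κ ≤ δ * τ / 2 := min_le_right _ _
  obtain ⟨P₁, hP₁⟩ := exists_nat_ge ((5120 : ℝ) ^ (2 / κ))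
  obtain ⟨P₂, hP₂⟩ := exists_nat_ge ((2 : ℝ) ^ (2 / δ))
  refine ⟨κ / 2, by positivity, max P (max P₁ P₂), ?_⟩
  intro p hp hPp A B hA hB u v hu hv χ hχ hev
  have hp0 : (0 : ℝ) < p := by exact_mod_cast hp.pos
  have hp1 : (1 : ℝ) ≤ p := by exact_mod_cast hp.one_lt.le
  set m : ℕ := ⌈(p : ℝ) ^ (δ / 2)⌉₊ with hm
  set n : ℕ := ⌈(p : ℝ) ^ δ⌉₊ with hn
  have hm2 : (2 : ℝ) ≤ (p : ℝ) ^ (δ / 2) := by
    have h1 : (P₂ : ℝ) ≤ p := by exact_mod_cast ((le_max_right _ _).trans (le_max_right _ _)).trans hPp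
    calc (2 : ℝ) = ((2 : ℝ) ^ (2 / δ)) ^ (δ / 2) := by
          rw [← Real.rpow_mul (by norm_num)]
          have : 2 / δ * (δ / 2) = 1 := by field_simp
          rw [this, Real.rpow_one]
      _ ≤ _ := Real.rpow_le_rpow (by positivity) (hP₂.trans h1) (by positivity)
  have hmle : (p : ℝ) ^ (δ / 2) ≤ m := Nat.le_ceil _
  have hm2' : 2 ≤ m := by
    have : (2 : ℝ) ≤ m := hm2.trans hmle
    exact_mod_cast this
  have hmlt : (m : ℝ) ≤ 2 * (p : ℝ) ^ (δ / 2) := by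
    have : (m : ℝ) < (p : ℝ) ^ (δ / 2) + 1 := Nat.ceil_lt_add_one (by positivity)
    linarith
  have hnle : (p : ℝ) ^ δ ≤ n := Nat.le_ceil _
  have hn1 : 1 ≤ n := by
    have : (1 : ℝ) ≤ (p : ℝ) ^ δ := Real.one_le_rpow hp1 hδ.le
    have : (1 : ℝ) ≤ n := this.trans hnle
    exact_mod_cast this
  have hn0 : (0 : ℝ) < n := by exact_mod_cast hn1
  have hm0 : (0 : ℝ) < m := by
    have : (2 : ℝ) ≤ m := by exact_mod_cast hm2'
    linarith
  -- the sets of size `m`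
  set K : ℝ := 2 * (p : ℝ) ^ (-κ) with hK
  have hK0 : 0 ≤ K := by positivity
  have hbase : ∀ C : Finset (ZMod p), C.card = m → ‖bil χ C C‖ ≤ K * (m * (m - 1)) := by
    intro C hC
    have h1 := hP p hp ((le_max_left _ _).trans hPp) C hC χ hχ hev
    have h2 : ((C.card : ℝ)) ^ (2 - τ) = (m : ℝ) * m * (m : ℝ) ^ (-τ) := by
      rw [hC]
      have : (2 - τ : ℝ) = 1 + 1 + (-τ) := by ring
      rw [this, Real.rpow_add hm0, Real.rpow_add hm0, Real.rpow_one]
    have h3 : (m : ℝ) ^ (-τ) ≤ (p : ℝ) ^ (-κ) := by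
      calc (m : ℝ) ^ (-τ) ≤ ((p : ℝ) ^ (δ / 2)) ^ (-τ) :=
            Real.rpow_le_rpow_of_nonpos (by positivity) hmle (by linarith)
        _ = (p : ℝ) ^ (-(δ * τ / 2)) := by
            rw [← Real.rpow_mul hp0.le]
            congr 1
            ring
        _ ≤ _ := Real.rpow_le_rpow_of_exponent_le hp1 (by linarith)
    have h4 : (m : ℝ) ≤ 2 * (m - 1) := by
      have : (2 : ℝ) ≤ m := by exact_mod_cast hm2'
      linarith
    have hpk : 0 ≤ (p : ℝ) ^ (-κ) := by positivity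
    calc ‖bil χ C C‖ ≤ (m : ℝ) * m * (m : ℝ) ^ (-τ) := by
          rw [← h2]
          exact h1
      _ ≤ (m : ℝ) * m * (p : ℝ) ^ (-κ) := by gcongr
      _ ≤ (m : ℝ) * (2 * (m - 1)) * (p : ℝ) ^ (-κ) := by gcongr
      _ = _ := by
          rw [hK]
          ring
  -- the sets of size at most `2n`
  have hM : ∀ C : Finset (ZMod p), C.card ≤ 2 * n → ‖bil χ C C‖ ≤ 20 * (p : ℝ) ^ (-κ) * n ^ 2 := by
    intro C hC
    have hC' : (C.card : ℝ) ≤ 2 * n := by exact_mod_cast hC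
    have hpk : 0 ≤ (p : ℝ) ^ (-κ) := by positivity
    rcases Nat.lt_or_ge C.card m with hc | hc
    · have h1 : (C.card : ℝ) ≤ m := by exact_mod_cast hc.le
      have h2 : (C.card : ℝ) ^ 2 ≤ 4 * (p : ℝ) ^ δ := by
        calc (C.card : ℝ) ^ 2 ≤ (2 * (p : ℝ) ^ (δ / 2)) ^ 2 :=
              pow_le_pow_left₀ (Nat.cast_nonneg _) (h1.trans hmlt) 2
          _ = 4 * (p : ℝ) ^ δ := by
              rw [mul_pow, ← Real.rpow_natCast ((p : ℝ) ^ (δ / 2)) 2, ← Real.rpow_mul hp0.le]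
              have : δ / 2 * ((2 : ℕ) : ℝ) = δ := by push_cast; ring
              rw [this]
              norm_num
      have h3 : (p : ℝ) ^ δ ≤ (p : ℝ) ^ (-κ) * n ^ 2 := by
        calc (p : ℝ) ^ δ = (p : ℝ) ^ (-δ) * ((p : ℝ) ^ δ) ^ 2 := by
              rw [← Real.rpow_natCast ((p : ℝ) ^ δ) 2, ← Real.rpow_mul hp0.le, ← Real.rpow_add hp0]
              congr 1
              push_cast
              ring
          _ ≤ (p : ℝ) ^ (-κ) * n ^ 2 := by
              have e1 : (p : ℝ) ^ (-δ) ≤ (p : ℝ) ^ (-κ) :=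
                Real.rpow_le_rpow_of_exponent_le hp1 (by linarith)
              have e2 : ((p : ℝ) ^ δ) ^ 2 ≤ (n : ℝ) ^ 2 := pow_le_pow_left₀ (by positivity) hnle 2
              gcongr
      calc ‖bil χ C C‖ ≤ C.card * C.card := bil_trivial χ C C
        _ = (C.card : ℝ) ^ 2 := by ring
        _ ≤ 4 * (p : ℝ) ^ δ := h2
        _ ≤ 4 * ((p : ℝ) ^ (-κ) * n ^ 2) := by linarith
        _ ≤ _ := by
            have : 0 ≤ (p : ℝ) ^ (-κ) * n ^ 2 := by positivity
            linarith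
    · have h1 := average χ hp.one_lt.ne' m hm2' K hbase C.card hc C rfl
      calc ‖bil χ C C‖ ≤ K * (C.card * (C.card - 1)) := h1
        _ ≤ K * ((2 * n) * (2 * n)) := by
            apply mul_le_mul_of_nonneg_left _ hK0
            have : (0 : ℝ) ≤ C.card := Nat.cast_nonneg _
            nlinarith
        _ ≤ _ := by
            rw [hK]
            have : 0 ≤ (p : ℝ) ^ (-κ) * n ^ 2 := by positivity
            linarith
  have hAn : n ≤ A.card := by
    rw [hn]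
    exact Nat.ceil_le.2 hA.le
  have hBn : n ≤ B.card := by
    rw [hn]
    exact Nat.ceil_le.2 hB.le
  have h1 := two_sets_of χ hev n hn1 _ hM A B hAn hBn u v hu hv
  refine h1.trans ?_
  apply mul_le_mul_of_nonneg_right _ (by positivity)
  have h2 : 256 * (20 * (p : ℝ) ^ (-κ) * (n : ℝ) ^ 2) / (n : ℝ) ^ 2 = 5120 * (p : ℝ) ^ (-κ) := by
    field_simp
    ring
  rw [h2]
  have h3 : (5120 : ℝ) ≤ (p : ℝ) ^ (κ / 2) := by
    have h4 : (P₁ : ℝ) ≤ p := by
      exact_mod_cast ((le_max_left _ _).trans (le_max_right _ _)).trans hPp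
    calc (5120 : ℝ) = ((5120 : ℝ) ^ (2 / κ)) ^ (κ / 2) := by
          rw [← Real.rpow_mul (by norm_num)]
          have : 2 / κ * (κ / 2) = 1 := by field_simp
          rw [this, Real.rpow_one]
      _ ≤ _ := Real.rpow_le_rpow (by positivity) (hP₁.trans h4) (by positivity)
  calc 5120 * (p : ℝ) ^ (-κ) ≤ (p : ℝ) ^ (κ / 2) * (p : ℝ) ^ (-κ) := by gcongr
    _ = (p : ℝ) ^ (-(κ / 2)) := by
        rw [← Real.rpow_add hp0]
        congr 1
        ring

theorem diff_imp_small : DifferenceSets → SmallSets := by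
  intro h δ hδ
  obtain ⟨τ, hτ, P, hP⟩ := h (δ / 2) (by positivity)
  refine ⟨τ, hτ, P, ?_⟩
  intro p hp hPp A hA χ hχ _
  apply le_of_lt
  apply hP p hp hPp A _ χ hχ
  have hp1 : (1 : ℝ) < p := by exact_mod_cast hp.one_lt
  calc (p : ℝ) ^ (δ / 2) < (p : ℝ) ^ δ := Real.rpow_lt_rpow_of_exponent_lt hp1 (by linarith)
    _ ≤ A.card := by
        rw [hA]
        exact Nat.le_ceil _

theorem two_imp_diff : TwoSets → DifferenceSets := by
  intro h δ hδ
  obtain ⟨τ, hτ, P, hP⟩ := h δ hδ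
  refine ⟨τ / 2, by positivity, P, ?_⟩
  intro p hp hPp A hA χ hχ
  haveI : NeZero p := ⟨hp.ne_zero⟩
  have hp1 : (1 : ℝ) < p := by exact_mod_cast hp.one_lt
  have hp0 : (0 : ℝ) < p := by linarith
  have hA1 : (1 : ℝ) < A.card := by
    have : (1 : ℝ) < (p : ℝ) ^ δ := Real.one_lt_rpow hp1 hδ
    linarith
  have hA0 : (0 : ℝ) < A.card := by linarith
  have hsq : χ (-1) * χ (-1) = 1 := by
    rw [← map_mul]
    norm_num
  have hcases : χ (-1) = 1 ∨ χ (-1) = -1 := mul_self_eq_one_iff.1 hsq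
  rcases hcases with hev | hodd
  · have h1 := hP p hp hPp A A hA hA (fun _ => 1) (fun _ => 1) (by simp) (by simp) χ hχ hev
    simp only [one_mul] at h1
    refine lt_of_le_of_lt h1 ?_
    have hAp : (A.card : ℝ) ≤ p := by
      have h2 := card_le_univ A
      rw [ZMod.card] at h2
      exact_mod_cast h2
    have h3 : (p : ℝ) ^ (-τ) ≤ (A.card : ℝ) ^ (-τ) :=
      Real.rpow_le_rpow_of_nonpos hA0 hAp (by linarith)
    calc (p : ℝ) ^ (-τ) * (A.card * A.card) ≤ (A.card : ℝ) ^ (-τ) * (A.card * A.card) := by gcongr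
      _ = (A.card : ℝ) ^ (2 - τ) := by
          have : (2 - τ : ℝ) = -τ + (1 + 1) := by ring
          rw [this, Real.rpow_add hA0, Real.rpow_add hA0, Real.rpow_one]
      _ < (A.card : ℝ) ^ (2 - τ / 2) :=
          Real.rpow_lt_rpow_of_exponent_lt hA1 (by linarith)
  · have h1 : ∑ a ∈ A, ∑ b ∈ A, χ (a - b) = 0 := by
      have h2 : ∑ a ∈ A, ∑ b ∈ A, χ (a - b) = - ∑ a ∈ A, ∑ b ∈ A, χ (a - b) := by
        conv_lhs => rw [sum_comm]
        rw [← sum_neg_distrib]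
        apply sum_congr rfl
        intro b _
        rw [← sum_neg_distrib]
        apply sum_congr rfl
        intro a _
        have : a - b = (-1) * (b - a) := by ring
        rw [this, map_mul, hodd, neg_one_mul]
      exact self_eq_neg.1 h2
    rw [h1, norm_zero]
    positivity

theorem pg_main : (DifferenceSets ↔ SmallSets) ∧ (DifferenceSets ↔ TwoSets) :=
  ⟨⟨diff_imp_small, fun h => two_imp_diff (small_imp h)⟩,
    ⟨fun h => small_imp (diff_imp_small h), two_imp_diff⟩⟩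

end Pool.Agent.X159.PG
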